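import Pool.Agent.L7h35.PC5.Stm

set_option autoImplicit false

/-! Project PX (helper35), part ODD. -/

namespace Pool.Agent.L7h70.PC5

open Pool.Agent.L7h35.PC5

theorem fin2 : ∀ p q r : Fin 2, p ≠ q → q ≠ r → r = p := by decide

theorem s_ODD : S_ODD := by
  classical
  intro n S hS j x hj hxinj hadj hlast
  obtain ⟨s, hs⟩ : ∃ s : ℕ → ℕ, ∀ t, s t = if t = 2 * j then 0 else t + 1 := ⟨_, fun _ => rfl⟩
  have hs1 : ∀ t, t < 2 * j → s t = t + 1 := fun t ht => by rw [hs, if_neg (by omega)]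
  have hs2 : s (2 * j) = 0 := by rw [hs, if_pos rfl]
  have hsle : ∀ t, t ≤ 2 * j → s t ≤ 2 * j := by
    intro t ht
    rw [hs]; split_ifs <;> omega
  have hA : ∀ t, t ≤ 2 * j → (gr S).Adj (x t) (x (s t)) := by
    intro t ht
    rcases Nat.lt_or_eq_of_le ht with h | h
    · rw [hs1 t h]; exact hadj t h
    · rw [h, hs2]; exact hlast
  have hE : ∀ t, ∃ e : Edge n, t ≤ 2 * j → e ∈ S ∧ e.1 = {x t, x (s t)} := by
    intro t
    by_cases ht : t ≤ 2 * j
    · obtain ⟨e, he, _, h2⟩ := hA t ht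
      exact ⟨e, fun _ => ⟨he, h2⟩⟩
    · obtain ⟨e, he, _, h2⟩ := hA 0 (by omega)
      exact ⟨e, fun h => absurd h ht⟩
  choose e he using hE
  obtain ⟨T, hT⟩ : ∃ T : Set (Edge n), ∀ f, f ∈ T ↔ ∃ t, t ≤ 2 * j ∧ f = e t :=
    ⟨{f | ∃ t, t ≤ 2 * j ∧ f = e t}, fun _ => Iff.rfl⟩
  have hTS : T ⊆ S := by
    intro f hf
    obtain ⟨t, ht, rfl⟩ := (hT f).1 hf
    exact (he t ht).1
  have hchi := hS T hTS
  have hmem : ∀ t, t ≤ 2 * j → e t ∈ T := fun t ht => (hT _).2 ⟨t, ht, rfl⟩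
  have key : ∀ a b, a ≤ 2 * j → b ≤ 2 * j → ((e a).1 ∩ (e b).1).Nonempty →
      a = b ∨ a = s b ∨ s a = b := by
    intro a b ha hb ⟨v, hv⟩
    rw [Finset.mem_inter, (he a ha).2, (he b hb).2] at hv
    simp only [Finset.mem_insert, Finset.mem_singleton] at hv
    obtain ⟨h1 | h1, h2 | h2⟩ := hv
    · left; exact hxinj a b ha hb (h1.symm.trans h2)
    · right; left; exact hxinj a (s b) ha (hsle b hb) (h1.symm.trans h2)
    · right; right; exact hxinj (s a) b (hsle a ha) hb (h1.symm.trans h2)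
    · left
      have h3 := hxinj (s a) (s b) (hsle a ha) (hsle b hb) (h1.symm.trans h2)
      rw [hs a, hs b] at h3
      split_ifs at h3 <;> omega
  have hclq : ((L n).induce T).cliqueNum ≤ 2 := by
    by_contra hcon
    have hcon := not_le.1 hcon
    obtain ⟨K, hK⟩ := ((L n).induce T).exists_isNClique_cliqueNum
    have hc : 2 < K.card := by rw [hK.card_eq]; exact hcon
    obtain ⟨f, hf, g, hg, h, hh, hfg, hfh, hgh⟩ := Finset.two_lt_card.1 hc
    obtain ⟨a, ha, hfa⟩ := (hT _).1 f.2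
    obtain ⟨b, hb, hgb⟩ := (hT _).1 g.2
    obtain ⟨c, hc', hhc⟩ := (hT _).1 h.2
    have i1 : (L n).Adj f.1 g.1 := hK.isClique (Finset.mem_coe.2 hf) (Finset.mem_coe.2 hg) hfg
    have i2 : (L n).Adj f.1 h.1 := hK.isClique (Finset.mem_coe.2 hf) (Finset.mem_coe.2 hh) hfh
    have i3 : (L n).Adj g.1 h.1 := hK.isClique (Finset.mem_coe.2 hg) (Finset.mem_coe.2 hh) hgh
    rw [hfa, hgb] at i1
    rw [hfa, hhc] at i2
    rw [hgb, hhc] at i3
    have k1 := key a b ha hb i1.2
    have k2 := key a c ha hc' i2.2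
    have k3 := key b c hb hc' i3.2
    have n1 : a ≠ b := fun h0 => i1.1 (by rw [h0])
    have n2 : a ≠ c := fun h0 => i2.1 (by rw [h0])
    have n3 : b ≠ c := fun h0 => i3.1 (by rw [h0])
    rw [hs a, hs b] at k1
    rw [hs a, hs c] at k2
    rw [hs b, hs c] at k3
    split_ifs at k1 k2 k3 <;> omega
  have hcol : ((L n).induce T).Colorable 2 := by
    rw [← SimpleGraph.chromaticNumber_le_iff_colorable, hchi]
    exact_mod_cast hclq
  obtain ⟨C⟩ := hcol
  have hne : ∀ (a b : ℕ) (ha : a ≤ 2 * j) (hb : b ≤ 2 * j), s a = b →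
      C ⟨e a, hmem a ha⟩ ≠ C ⟨e b, hmem b hb⟩ := by
    intro a b ha hb hab
    apply C.valid
    show (L n).Adj (e a) (e b)
    refine ⟨?_, ?_⟩
    · intro h1
      have h2 : (e a).1 = (e b).1 := by rw [h1]
      have h3 : x a ∈ (e b).1 := by
        rw [← h2, (he a ha).2]
        exact Finset.mem_insert_self _ _
      rw [(he b hb).2] at h3
      simp only [Finset.mem_insert, Finset.mem_singleton] at h3
      rcases h3 with h3 | h3
      · have h4 := hxinj _ _ ha hb h3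
        rw [hs] at hab
        split_ifs at hab <;> omega
      · have h4 := hxinj _ _ ha (hsle b hb) h3
        rw [hs b] at h4
        rw [hs a] at hab
        split_ifs at h4 hab <;> omega
    · refine ⟨x b, ?_⟩
      rw [Finset.mem_inter, (he a ha).2, (he b hb).2, hab]
      exact ⟨Finset.mem_insert_of_mem (Finset.mem_singleton_self _), Finset.mem_insert_self _ _⟩
  have halt : ∀ (i : ℕ) (hi : 2 * i ≤ 2 * j),
      C ⟨e (2 * i), hmem _ hi⟩ = C ⟨e 0, hmem 0 (Nat.zero_le _)⟩ := by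
    intro i
    induction i with
    | zero => intro _; rfl
    | succ i ih =>
      intro hi
      have h1 := hne (2 * i) (2 * i + 1) (by omega) (by omega) (hs1 _ (by omega))
      have h2 := hne (2 * i + 1) (2 * (i + 1)) (by omega) hi (by rw [hs1 _ (by omega)]; ring)
      rw [← ih (by omega)]
      exact fin2 _ _ _ h1 h2
  exact hne (2 * j) 0 le_rfl (Nat.zero_le _) hs2 (halt j le_rfl)

end Pool.Agent.L7h70.PC5
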